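import Pool.Agent.N763.QB.U1
import Pool.Agent.N875.K15.Stm

/-!
# Project K15: sufficient condition at the places over `5`
-/

set_option autoImplicit false

open NumberField IsDedekindDomain

namespace Pool.Agent.N31.K15

open Pool.Agent.N763.QB (io vl vl_lt vl_le vl_one sqL pu io_int int_notMem)
open Pool.Agent.N856.QB (Lo)
open Pool.Agent.N875.K17 (Qd)
open Pool.Agent.N875.K15 (LoE C5 S_5U)

section

variable {K : Type} [Field K] [NumberField K] {w : HeightOneSpectrum (𝓞 K)}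

lemma notMem (h5 : (5 : 𝓞 K) ∈ w.asIdeal) {z : ℤ} (hz : ¬ (5 : ℤ) ∣ z) :
    ((z : ℤ) : 𝓞 K) ∉ w.asIdeal :=
  int_notMem (p := 5) (by norm_num) (by exact_mod_cast h5) (by exact_mod_cast hz)

lemma two_notMem (h5 : (5 : 𝓞 K) ∈ w.asIdeal) : (2 : 𝓞 K) ∉ w.asIdeal := by
  have := notMem h5 (z := 2) (by norm_num)
  exact_mod_cast this

lemma int_ne {z : ℤ} (hz : z ≠ 0) : (z : w.adicCompletion K) ≠ 0 := by
  intro h
  have h1 : ((z : ℤ) : K) ≠ 0 := Int.cast_ne_zero.2 hz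
  apply h1
  apply (algebraMap K (w.adicCompletion K)).injective
  rw [map_intCast, map_zero]
  exact h

/-- the squares modulo `5` are squares -/
lemma sqj (h5 : (5 : 𝓞 K) ∈ w.asIdeal) {z : ℤ} (hz : jacobiSym z 5 = 1) :
    IsSquare (z : w.adicCompletion K) := by
  haveI : Fact (Nat.Prime 5) := ⟨by norm_num⟩
  rw [← jacobiSym.legendreSym.to_jacobiSym] at hz
  have h0 : ((z : ℤ) : ZMod 5) ≠ 0 := by
    intro h
    rw [(legendreSym.eq_zero_iff 5 z).2 h] at hz
    exact zero_ne_one hz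
  obtain ⟨y, hy⟩ := (legendreSym.eq_one_iff 5 h0).1 hz
  have h1 : ¬ (5 : ℤ) ∣ z := fun h => h0 ((ZMod.intCast_zmod_eq_zero_iff_dvd z 5).2 h)
  have h2 : (5 : ℤ) ∣ z - (y.val : ℤ) * (y.val : ℤ) := by
    have := (ZMod.intCast_zmod_eq_zero_iff_dvd (z - (y.val : ℤ) * (y.val : ℤ)) 5).1 (by
      push_cast
      rw [ZMod.natCast_zmod_val, hy, sub_self])
    exact_mod_cast this
  obtain ⟨k, hk⟩ := h2
  have h3 := sqL (two_notMem h5) (notMem h5 h1) (y := ((y.val : ℤ) : 𝓞 K)) (by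
    have : ((z : ℤ) : 𝓞 K) - ((y.val : ℤ) : 𝓞 K) * ((y.val : ℤ) : 𝓞 K) = (k : 𝓞 K) * 5 := by
      have := congrArg (fun t : ℤ => (t : 𝓞 K)) hk
      push_cast at this ⊢
      rw [this]
      ring
    rw [this]
    exact w.asIdeal.mul_mem_left _ h5)
  rwa [io_int] at h3

/-- the square root -/
lemma exists_s (h5 : (5 : 𝓞 K) ∈ w.asIdeal) {d : ℤ} (hd : ¬ (5 : ℤ) ∣ d) (e : ℤ) :
    ∃ s : w.adicCompletion K, s ≠ 0 ∧ s ^ 2 = 1 - 5 * (e : w.adicCompletion K) / d := by
  have h1 := vl_lt w h5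
  have h2 := vl_le w ((e : ℤ) : 𝓞 K)
  have h3 := vl_one w (notMem h5 hd)
  rw [io_int] at h2 h3
  rw [map_ofNat] at h1
  have h4 : vl w ((1 - 5 * (e : w.adicCompletion K) / d) - 1) < 1 := by
    rw [sub_sub_cancel_left, Valuation.map_neg, map_div₀, h3, div_one, map_mul]
    calc vl w 5 * vl w (e : w.adicCompletion K) ≤ vl w 5 * 1 := mul_le_mul_right h2 _
      _ < 1 := by rwa [mul_one]
  obtain ⟨s, hs⟩ := pu (two_notMem h5) h4
  refine ⟨s, ?_, by rw [hs, sq]⟩
  rintro rfl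
  rw [mul_zero] at hs
  rw [hs, zero_sub, Valuation.map_neg, map_one] at h4
  exact lt_irrefl _ h4

/-- the number `x - 16` is `x + 9` times the square of `s` -/
lemma exists_t (h5 : (5 : 𝓞 K) ∈ w.asIdeal) {b : ℤ} (hb : Squarefree b) :
    ∃ s : w.adicCompletion K, s ≠ 0 ∧
      s ^ 2 = 1 - 25 * (4 * (b : w.adicCompletion K) + 1) ^ 2 / (144 * b) := by
  have hp : Prime (5 : ℤ) := by
    have := Nat.prime_iff_prime_int.1 (by norm_num : Nat.Prime 5)
    exact_mod_cast this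
  have e : ∀ n : ℤ, n ≠ 0 → (n : w.adicCompletion K) ≠ 0 := fun n hn => int_ne hn
  have n5 := e 5 (by norm_num)
  have n144 := e 144 (by norm_num)
  push_cast at n5 n144
  by_cases h : (5 : ℤ) ∣ b
  · obtain ⟨b', rfl⟩ := h
    have hb' : ¬ (5 : ℤ) ∣ b' := by
      intro h1
      have := hb 5 (mul_dvd_mul_left _ h1)
      norm_num [Int.isUnit_iff] at this
    have hb0 : b' ≠ 0 := by
      rintro rfl
      exact hb' (dvd_zero _)
    have k0 := e b' hb0
    obtain ⟨s, hs0, hs⟩ := exists_s (w := w) h5 (d := 144 * b') (by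
      intro h
      rcases hp.dvd_or_dvd h with h | h
      · norm_num at h
      · exact hb' h) ((4 * (5 * b') + 1) ^ 2)
    refine ⟨s, hs0, ?_⟩
    rw [hs]
    push_cast
    field_simp
    ring
  · have hb0 : b ≠ 0 := by
      rintro rfl
      exact h (dvd_zero _)
    have k0 := e b hb0
    obtain ⟨s, hs0, hs⟩ := exists_s (w := w) h5 (d := 144 * b) (by
      intro h'
      rcases hp.dvd_or_dvd h' with h' | h'
      · norm_num at h'
      · exact h h') (5 * (4 * b + 1) ^ 2)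
    refine ⟨s, hs0, ?_⟩
    rw [hs]
    push_cast
    field_simp
    ring

/-- the points -/
lemma point (h5 : (5 : 𝓞 K) ∈ w.asIdeal) {b : ℤ} (hb : Squarefree b) :
    ∃ x y : w.adicCompletion K, y ≠ 0 ∧ y ^ 2 = x * (x + 9) * (x - 16) ∧ IsSquare x ∧
      IsSquare ((x + 9) * b) := by
  obtain ⟨i, hi⟩ : IsSquare ((-1 : ℤ) : w.adicCompletion K) := sqj h5 (by norm_num)
  push_cast at hi
  have hi' : i ^ 2 = -1 := by rw [hi, sq]
  have hi0 : i ≠ 0 := by
    rintro rfl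
    norm_num at hi'
  have e : ∀ n : ℤ, n ≠ 0 → (n : w.adicCompletion K) ≠ 0 := fun n hn => int_ne hn
  have n3 := e 3 (by norm_num)
  have n144 := e 144 (by norm_num)
  push_cast at n3 n144
  obtain ⟨s, hs0, hs⟩ := exists_t (w := w) h5 hb
  have k0 := e b hb.ne_zero
  have k1 := e (4 * b + 1) (by omega)
  have k2 := e (4 * b - 1) (by omega)
  push_cast at k1 k2
  refine ⟨-(3 * (4 * b - 1) / (4 * b + 1)) ^ 2,
    i * s * (3 * (4 * b - 1) / (4 * b + 1)) * (144 * b / (4 * b + 1) ^ 2), ?_, ?_, ?_, ?_⟩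
  · exact mul_ne_zero (mul_ne_zero (mul_ne_zero hi0 hs0) (div_ne_zero (mul_ne_zero n3 k2) k1))
      (div_ne_zero (mul_ne_zero n144 k0) (pow_ne_zero _ k1))
  · rw [mul_pow, mul_pow, mul_pow, hi', hs]
    field_simp
    ring
  · exact ⟨i * (3 * (4 * b - 1) / (4 * b + 1)), by
      linear_combination (-(3 * (4 * b - 1) / (4 * b + 1) : w.adicCompletion K) ^ 2) * hi'⟩
  · refine ⟨12 * b / (4 * b + 1), ?_⟩
    field_simp
    ring

/-- the number `a` is a square -/
lemma sq_a (h5 : (5 : 𝓞 K) ∈ w.asIdeal) {m : ℤ} (hm : m ≠ 0) {r : K} (hr : r ^ 2 = (m : K)) {a : ℤ}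
    (h : C5 m a) : IsSquare (a : w.adicCompletion K) := by
  have hm0 : (m : w.adicCompletion K) ≠ 0 := int_ne hm
  have hmr : (algebraMap K (w.adicCompletion K) r) ^ 2 = (m : w.adicCompletion K) := by
    rw [← map_pow, hr, map_intCast]
  have hdiv : IsSquare ((a * m : ℤ) : w.adicCompletion K) → IsSquare (a : w.adicCompletion K) := by
    rintro ⟨t, ht⟩
    refine ⟨t / algebraMap K (w.adicCompletion K) r, ?_⟩
    rw [div_mul_div_comm, ← ht, ← sq, hmr]
    push_cast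
    field_simp
  obtain ⟨h1, h2, h3⟩ := h
  haveI : Fact (Nat.Prime 5) := ⟨by norm_num⟩
  rcases jacobiSym.trichotomy m 5 with h | h | h
  · have h4 : (5 : ℤ) ∣ m := by
      rw [← jacobiSym.legendreSym.to_jacobiSym, legendreSym.eq_zero_iff] at h
      exact_mod_cast (ZMod.intCast_zmod_eq_zero_iff_dvd m 5).1 h
    rcases h3 h4 with h6 | ⟨h6, h7⟩
    · exact sqj h5 h6
    · apply hdiv
      obtain ⟨t, ht⟩ := sqj (w := w) h5 h7
      refine ⟨5 * t, ?_⟩
      obtain ⟨a', rfl⟩ := h6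
      obtain ⟨m', rfl⟩ := h4
      rw [Int.mul_ediv_cancel_left _ (by norm_num), Int.mul_ediv_cancel_left _ (by norm_num)] at ht
      push_cast at ht ⊢
      linear_combination (5 * 5 : w.adicCompletion K) * ht
  · exact sqj h5 (h2 h)
  · have h4 := h1 h
    rcases jacobiSym.trichotomy a 5 with h6 | h6 | h6
    · rw [← jacobiSym.legendreSym.to_jacobiSym, legendreSym.eq_zero_iff] at h6
      exact absurd (by exact_mod_cast (ZMod.intCast_zmod_eq_zero_iff_dvd a 5).1 h6) h4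
    · exact sqj h5 h6
    · apply hdiv
      apply sqj h5
      rw [jacobiSym.mul_left, h, h6]
      norm_num

end

/-- **K15-5U** -/
theorem t_5U : S_5U := by
  intro m hm _ K _ _ r hQ w h5 a b ha hb h
  obtain ⟨x, y, h1, h2, h3, h4⟩ := point (w := w) h5 hb
  refine ⟨x, y, h1, ?_, ?_, ?_⟩
  · rw [h2]
    push_cast
    ring
  · have : x - ((0 : ℤ) : w.adicCompletion K) = x := by push_cast; ring
    rw [this]
    exact h3.mul (sq_a h5 hm.ne_zero hQ.hr h)
  · have : x - ((-9 : ℤ) : w.adicCompletion K) = x + 9 := by push_cast; ring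
    rw [this]
    exact h4

end Pool.Agent.N31.K15
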